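import Pool.Agent.Helper69.VX.St

/-!
# Project VX, module BIT: one more bit
-/

set_option autoImplicit false

namespace Pool.Agent.Helper8.VX

open Finset Filter Pool.Agent.Helper82.CN Pool.Agent.Helper11.PV Pool.Agent.Helper69.VX

/-- the mean of a function of one bit -/
lemma EE_one {ι : Type} [Fintype ι] [DecidableEq ι] (p : ℝ) (i : ι) (f : Bool → ℝ) :
    EE p (fun η : ι → Bool => f (η i)) = p * f true + (1 - p) * f false := by
  have h := EE_marg (ι := ι) (κ := Unit) p (fun _ => i) (fun _ _ _ => rfl) (fun ω => f (ω ()))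
  rw [show (fun η : ι → Bool => f (η i)) =
    (fun ω : ι → Bool => (fun ω' : Unit → Bool => f (ω' ())) (fun j => ω ((fun _ : Unit => i) j)))
    from rfl, h]
  unfold EE
  rw [← (Equiv.funUnique Unit Bool).symm.sum_comp, Fintype.sum_bool]
  simp [bw]

/-- a mean over the bits outside `L` depends only on the bits in `L` -/
lemma dep_AV {ι : Type} [Fintype ι] [DecidableEq ι] (p : ℝ) (L : Set ι) (F : (ι → Bool) → ℝ) :
    Dep L (AV p L F) := by
  intro ω ω' h
  unfold AV
  have h1 : ∀ η : ι → Bool, mix L ω η = mix L ω' η := by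
    intro η
    funext j
    by_cases hj : j ∈ L
    · rw [mix_pos hj, mix_pos hj, h j hj]
    · rw [mix_neg hj, mix_neg hj]
  simp only [h1]

theorem hBIT : StBIT := by
  intro p ι _ _ F K i hp0 hp1 hi
  set G : (ι → Bool) → ℝ := AV p (insert i K) F with hG
  have hKG : AV p K G = AV p K F := by
    rw [hG, AV_AV, Set.inter_eq_left.mpr (Set.subset_insert i K)]
  have hdep : Dep (insert i K) G := dep_AV p (insert i K) F
  have hmix : ∀ ω η : ι → Bool, G (mix K ω η) = G (Function.update ω i (η i)) := by
    intro ω η
    refine hdep _ _ fun j hj => ?_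
    by_cases hji : j = i
    · subst hji
      rw [mix_neg hi, Function.update_self]
    · have hjK : j ∈ K := by
        rcases hj with h | h
        · exact absurd h hji
        · exact h
      rw [mix_pos hjK, Function.update_of_ne hji]
  have hAV : ∀ ω : ι → Bool, AV p K G ω =
      p * G (Function.update ω i true) + (1 - p) * G (Function.update ω i false) := by
    intro ω
    unfold AV
    simp only [hmix]
    exact EE_one p i (fun b => G (Function.update ω i b))
  have hdiff : ∀ ω : ι → Bool, (G ω - AV p K G ω) ^ 2 =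
      ((if ω i = true then (1 : ℝ) else 0) - p) ^ 2 * (DD G i ω) ^ 2 := by
    intro ω
    have h1 : G ω = G (Function.update ω i (ω i)) := by rw [Function.update_eq_self]
    rw [hAV, h1]
    unfold DD
    cases hb : ω i
    · simp only [Bool.false_eq_true, if_false]
      ring
    · simp only [if_true]
      ring
  have hind : EE p (fun ω : ι → Bool => ((if ω i = true then (1 : ℝ) else 0) - p) ^ 2 *
      (DD G i ω) ^ 2) =
      EE p (fun ω : ι → Bool => ((if ω i = true then (1 : ℝ) else 0) - p) ^ 2) *
      EE p (fun ω : ι → Bool => (DD G i ω) ^ 2) := by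
    refine EE_indep p (fun j => j = i) (fun ω : ι → Bool => ((if ω i = true then (1 : ℝ) else 0) - p) ^ 2)
      (fun ω : ι → Bool => (DD G i ω) ^ 2) ?_ ?_
    · intro ω ω' h
      simp only [h i rfl]
    · intro ω ω' h
      have h1 := dep_DD G i (dep_univ G) ω ω' (fun j hj => h j (fun hji => hj.2 hji))
      simp only [h1]
  have hvar : EE p (fun ω : ι → Bool => ((if ω i = true then (1 : ℝ) else 0) - p) ^ 2) =
      p * (1 - p) := by
    rw [EE_one p i (fun b => ((if b = true then (1 : ℝ) else 0) - p) ^ 2)]
    simp only [Bool.false_eq_true, if_false, if_true]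
    ring
  have hDD : DD G i = AV p K (DD F i) := by
    rw [hG, DD_AV p (Set.mem_insert i K)]
    refine AV_congr p (dep_DD F i (dep_univ F)) ?_
    ext j
    constructor
    · rintro ⟨h1 | h1, h2⟩
      · exact absurd h1 h2.2
      · exact ⟨h1, h2⟩
    · rintro ⟨h1, h2⟩
      exact ⟨Or.inr h1, h2⟩
  have hp := pyth p K G
  simp only [hdiff] at hp
  rw [hind, hvar, hDD] at hp
  have h1 : NN p (insert i K) F = EE p (fun ω => G ω ^ 2) := rfl
  have h2 : NN p K G = NN p K F := by
    unfold NN
    rw [hKG]
  have h3 : NN p K (DD F i) = EE p (fun ω => AV p K (DD F i) ω ^ 2) := rfl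
  rw [h1, h3, ← h2]
  exact hp.symm

end Pool.Agent.Helper8.VX
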